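import Pool.Agent.N873.AK.Fin
import Pool.Agent.TH841.NF.One
import Pool.Agent.TH841.NF.FamN
import Pool.Agent.Y655.XT.Shavc

/-!
# Project AM (helper873): coranks of the `2 ^ ∞`-Selmer groups over multiquadratic fields, all the twists
-/

set_option autoImplicit false
set_option linter.unusedVariables false

open scoped Classical

namespace Pool.Agent.N873.AM

section sha

open WeierstrassCurve
open Pool.Agent.Y655.XT (Iso isoVR)
open Pool.Agent.TH841.SH.D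

variable {W W' : WeierstrassCurve ℚ}

theorem sha_memQ (I : Iso W W') {f : Coch W'} (hf : f ∈ shaCoc W') : I.coch f ∈ shaCoc W :=
  ⟨I.coc hf.1, fun p _ => I.loc (hf.2.1 p), I.loc hf.2.2⟩

/-- the isomorphism of the groups of cocycles -/
noncomputable def shaCQ (I : Iso W W') : shaCoc W' ≃+ shaCoc W where
  toFun f := ⟨I.coch f.1, sha_memQ I f.2⟩
  invFun g := ⟨I.symm.coch g.1, sha_memQ I.symm g.2⟩
  left_inv f := Subtype.ext (I.symm_coch f.1)
  right_inv g := Subtype.ext (I.coch_symm g.1)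
  map_add' f g := Subtype.ext (I.coch_add f.1 g.1)

theorem map_cobQ (I : Iso W W') : ((cob W').addSubgroupOf (shaCoc W')).map
    (shaCQ I : shaCoc W' →+ shaCoc W) = (cob W).addSubgroupOf (shaCoc W) := by
  ext g
  rw [AddSubgroup.mem_map, AddSubgroup.mem_addSubgroupOf]
  constructor
  · rintro ⟨f, hf, rfl⟩
    rw [AddSubgroup.mem_addSubgroupOf] at hf
    exact I.cob hf
  · intro hg
    refine ⟨(shaCQ I).symm g, ?_, (shaCQ I).apply_symm_apply g⟩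
    rw [AddSubgroup.mem_addSubgroupOf]
    exact I.symm.cob hg

/-- the isomorphism of the Tate-Shafarevich groups -/
noncomputable def shaIQ (I : Iso W W') : Sha W' ≃+ Sha W :=
  QuotientAddGroup.congr _ _ (shaCQ I) (map_cobQ I)

end sha

open Finset NumberField Filter
open Pool.Agent.N856.JL (sfp sfp_spec sfp_sqf sfp_dvd)
open Pool.Agent.N856.JL.All (sfp_inj_mul)
open Pool.Agent.N873.UT (EQ Em r4 gs gs_iff exK parts2)
open Pool.Agent.N873.MF (cA cB EK)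
open Pool.Agent.N873.MF.FLD (nat_sfp disc_eq vr)
open Pool.Agent.N873.AL (Pr T bad bound parts tail)
open Pool.Agent.N873.AK (sfp_T prod_mod disc_ne EQ_Δ dil)
open Pool.Agent.TH841.NF.D (HasDiv crk rk)
open Pool.Agent.TH841.SH (Bd)
open Pool.Agent.W307.RT (Sh)

/-- the bound does not depend on the equation -/
theorem bd_vr {W W' : WeierstrassCurve ℚ} {u r s t : ℚ} (h : Pool.Agent.Y700.VR W W' u r s t)
    (hΔ : W'.Δ ≠ 0) {N : ℝ} (h1 : Finite {x : Pool.Agent.TH841.SH.D.Sha W' // x + x = 0})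
    (h2 : (2 : ℝ) ^ Module.finrank ℤ W'.toAffine.Point *
      Nat.card {x : Pool.Agent.TH841.SH.D.Sha W' // x + x = 0} ≤ N) : Bd W N := by
  have e := h.equiv hΔ
  have I := (shaIQ (Pool.Agent.Y655.XT.isoVR h hΔ)).trans (Pool.Agent.TH841.SH.D.eSha W)
  have J : {x : Pool.Agent.TH841.SH.D.Sha W' // x + x = 0} ≃
      {x : Pool.Agent.W262.SH.Sha W // x + x = 0} :=
    I.toEquiv.subtypeEquiv (fun x => by
      change x + x = 0 ↔ I x + I x = 0
      rw [← map_add, EmbeddingLike.map_eq_zero_iff])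
  refine ⟨Finite.of_equiv _ J, ?_⟩
  rw [← Nat.card_congr J, ← LinearEquiv.finrank_eq e.toIntLinearEquiv]
  exact h2

/-- the curve over `ℚ` for a number which is not squarefree -/
theorem bd_Q {F : Finset (ℤ × ℤ)} (hF : ∀ c ∈ F, Pr c) {c : ℤ × ℤ} (hc : c ∈ F) {m : ℕ} (hm : m ∈ T)
    {R : ℕ} (hR : gs m = 2 ^ (R + 1)) {n D s : ℤ} (hs : s ≠ 0) (h : n * D = m * s ^ 2) :
    Bd (Sh (D ^ 2 * cA n c) (D ^ 3 * cB n c)) ((2 : ℝ) ^ (2 * (R + (bad F).card + 1))) := by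
  have hm0 : (m : ℤ) ≠ 0 := by exact_mod_cast hm.1.ne_zero
  obtain ⟨K, i1, i2, h2, hs'⟩ := exK m hm.1.ne_zero
  obtain ⟨h5, h6⟩ := bound parts hF hc hm.1 hm.2 K h2 hs'
  have e1 := gs_iff parts2 hm.1 hm.2 K h2 hs'
  rw [hR, pow_succ, mul_comm] at e1
  have hr : r4 K = 2 ^ R := (Nat.eq_of_mul_eq_mul_left (by norm_num) e1).symm
  have e : (2 ^ ((bad F).card + 1) * r4 K) ^ 2 = 2 ^ (2 * (R + (bad F).card + 1)) := by
    rw [hr, ← pow_add, ← pow_mul]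
    congr 1
    ring
  rw [e] at h6
  have hv := vr c hs h
  rw [mul_comm (cA n c), mul_comm (cB n c)] at hv
  exact bd_vr hv (EQ_Δ (hF c hc) hm0) h5 (by exact_mod_cast h6)

/-- the rank and the corank over the field, in terms of the 4-ranks -/
theorem cor_K {F : Finset (ℤ × ℤ)} (hF : ∀ c ∈ F, Pr c) {c : ℤ × ℤ} (hc : c ∈ F) {r : ℕ}
    {d : Fin r → ℕ} (hd : ∀ i, d i % 4 = 1) (K : Type) [Field K] [NumberField K] (x : Fin r → K)
    (hx : ∀ i, x i ^ 2 = (d i : K)) (hK : IntermediateField.adjoin ℚ (Set.range x) = ⊤) {n : ℕ}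
    (hn : n ∈ T) (R : Finset (Fin r) → ℕ) (hR : ∀ S, gs (sfp (n * ∏ i ∈ S, d i)) = 2 ^ (R S + 1)) :
    BddAbove {q | HasDiv (EK K n c) q} ∧
      rk (EK K n c) + crk (EK K n c) ≤ ∑ S, 2 * (R S + (bad F).card + 1) := by
  have hn0 : (n : ℤ) ≠ 0 := by exact_mod_cast hn.1.ne_zero
  have hnp : 0 < n := Nat.pos_of_ne_zero hn.1.ne_zero
  have hdisc := disc_ne (hF c hc) hn0
  obtain ⟨d', hd'⟩ : ∃ d' : Fin r → ℤ, ∀ i, d' i = (d i : ℤ) := ⟨fun i => (d i : ℤ), fun _ => rfl⟩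
  have hdp : ∀ i, 0 < d i := fun i => by
    have := hd i
    omega
  have hd0 : ∀ i, d' i ≠ 0 := fun i => by
    rw [hd']
    exact_mod_cast (hdp i).ne'
  have hx' : ∀ i, x i ^ 2 = (d' i : K) := fun i => by
    rw [hx, hd']
    simp
  have hprod : ∀ S : Finset (Fin r), ∏ i ∈ S, d' i = ((∏ i ∈ S, d i : ℕ) : ℤ) := fun S => by
    push_cast
    exact prod_congr rfl fun i _ => hd' i
  have key : ∀ S : Finset (Fin r), ∃ s : ℤ, s ≠ 0 ∧
      (n : ℤ) * ∏ i ∈ S, d' i = ((sfp (n * ∏ i ∈ S, d i) : ℕ) : ℤ) * s ^ 2 := by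
    intro S
    have hpos : 0 < n * ∏ i ∈ S, d i := Nat.mul_pos hnp (Finset.prod_pos fun i _ => hdp i)
    obtain ⟨s, h1, h2, h3⟩ := nat_sfp hpos
    refine ⟨s, by exact_mod_cast h1.ne', ?_⟩
    rw [hprod]
    exact_mod_cast h2.symm
  have hbd : ∀ S : Finset (Fin r), Bd (Sh ((∏ i ∈ S, d' i) ^ 2 * cA n c) ((∏ i ∈ S, d' i) ^ 3 * cB n c))
      ((2 : ℝ) ^ (2 * (R S + (bad F).card + 1))) := by
    intro S
    obtain ⟨s, hs, h⟩ := key S
    exact bd_Q hF hc (sfp_T hn (prod_mod hd S)).1 (hR S) hs h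
  have hfg : ∀ S : Finset (Fin r), Module.Finite ℤ (Sh ((∏ i ∈ S, d' i) ^ 2 * cA n c)
      ((∏ i ∈ S, d' i) ^ 3 * cB n c)).toAffine.Point := by
    intro S
    have h0 : ∏ i ∈ S, d' i ≠ 0 := prod_ne_zero_iff.2 fun i _ => hd0 i
    have h1 : 4 * ((∏ i ∈ S, d' i) ^ 2 * cA n c) ^ 3 + 27 * ((∏ i ∈ S, d' i) ^ 3 * cB n c) ^ 2 ≠ 0 := by
      have e : 4 * ((∏ i ∈ S, d' i) ^ 2 * cA n c) ^ 3 + 27 * ((∏ i ∈ S, d' i) ^ 3 * cB n c) ^ 2 =
          (∏ i ∈ S, d' i) ^ 6 * (4 * cA n c ^ 3 + 27 * cB n c ^ 2) := by ring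
      rw [e]
      exact mul_ne_zero (pow_ne_zero 6 h0) hdisc
    exact Pool.Agent.Y687.MQ.fg_EQ h1
  have hone : ∀ q, HasDiv (EK K n c) q →
      (2 : ℝ) ^ (rk (EK K n c) + q) ≤ ∏ S : Finset (Fin r), (2 : ℝ) ^ (2 * (R S + (bad F).card + 1)) :=
    fun q hq => Pool.Agent.TH841.NF.one_field (d := d') ⟨x, hx', hK⟩ hd0 hdisc _ hbd hfg hq
  have hb := Pool.Agent.TH841.NF.bdd_of hone
  refine ⟨hb, ?_⟩
  have h1 := hone _ (Pool.Agent.TH841.NF.crk_mem hb)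
  rw [Finset.prod_pow_eq_pow_sum] at h1
  exact (pow_le_pow_iff_right₀ (by norm_num : (1 : ℝ) < 2)).1 h1

/-- **The tail over the field**, for any property which implies a large 4-rank. -/
theorem tail_gen {r : ℕ} {d : Fin r → ℕ} (hd : ∀ i, d i % 4 = 1) (ρ : ℕ) (G : ℕ → Prop)
    (hG : ∀ n ∈ T, (∀ S : Finset (Fin r), ∃ R ≤ ρ, gs (sfp (n * ∏ i ∈ S, d i)) = 2 ^ (R + 1)) → ¬ G n)
    (ε : ℝ) (hε : 0 < ε) : ∀ᶠ X : ℕ in atTop,
      (((Icc 1 X).filter fun n => n ∈ T ∧ G n).card : ℝ) ≤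
      ((∏ i, (1 + (d i : ℝ))) * (4 * (1 / 2 : ℝ) ^ (ρ + 1) ^ 2) + ε) *
        (((Icc 1 X).filter fun n => n ∈ T).card : ℝ) := by
  set δ : ℝ := 4 * (1 / 2 : ℝ) ^ (ρ + 1) ^ 2 with hδ
  have hδ0 : 0 < δ := by positivity
  obtain ⟨V, hV⟩ : ∃ V : Set ℕ, ∀ m, m ∈ V ↔ ∀ R ≤ ρ, gs m ≠ 2 ^ (R + 1) :=
    ⟨{m | ∀ R ≤ ρ, gs m ≠ 2 ^ (R + 1)}, fun m => Iff.rfl⟩
  -- the constants
  set D : ℝ := ∏ i, (1 + (d i : ℝ)) with hD
  have hDsum : D = ∑ S : Finset (Fin r), ((∏ i ∈ S, d i : ℕ) : ℝ) := by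
    rw [hD, Finset.prod_one_add]
    rw [Finset.powerset_univ]
    exact sum_congr rfl fun S _ => by push_cast; rfl
  have hD0 : 0 < D := prod_pos fun i _ => by positivity
  obtain ⟨η, hη, hη1⟩ : ∃ η : ℝ, 0 < η ∧ (δ + η) * (D + 2 ^ r * η) ≤ D * δ + ε := by
    refine ⟨min 1 (ε / (D + 2 ^ r * (δ + 1))), lt_min one_pos (by positivity), ?_⟩
    set η : ℝ := min 1 (ε / (D + 2 ^ r * (δ + 1))) with hη
    have h1 : η ≤ 1 := min_le_left _ _
    have h2 : η ≤ ε / (D + 2 ^ r * (δ + 1)) := min_le_right _ _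
    have h3 : 0 < η := lt_min one_pos (by positivity)
    rw [le_div_iff₀ (by positivity)] at h2
    have h4 : (0 : ℝ) < 2 ^ r := by positivity
    have h5 : η * η ≤ η := by nlinarith
    have h6 : (2 : ℝ) ^ r * (η * η) ≤ 2 ^ r * η := mul_le_mul_of_nonneg_left h5 h4.le
    nlinarith
  have ht := tail ρ V (fun n _ R hR h h' => (hV n).1 h' R hR h) η hη
  have hev : ∀ S : Finset (Fin r), ∀ᶠ X : ℕ in atTop,
      (((Icc 1 (X * ∏ i ∈ S, d i)).filter fun n => n ∈ T ∧ n ∈ V).card : ℝ) ≤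
        (δ + η) * ((((∏ i ∈ S, d i : ℕ) : ℝ) + η) * (((Icc 1 X).filter fun n => n ∈ T).card : ℝ)) := by
    intro S
    have hp : 0 < ∏ i ∈ S, d i := by
      have := prod_mod hd S
      omega
    have h1 := (tendsto_id.atTop_mul_const' hp).eventually ht
    filter_upwards [h1, dil _ hp η hη] with X h2 h3
    simp only [id] at h2
    refine h2.trans ?_
    exact mul_le_mul_of_nonneg_left h3 (by positivity)
  have hall := (eventually_all_finset (univ : Finset (Finset (Fin r)))).2 fun S _ => hev S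
  filter_upwards [hall] with X hX
  have hsub : ((Icc 1 X).filter fun n => n ∈ T ∧ G n) ⊆
      (univ : Finset (Finset (Fin r))).biUnion fun S =>
        (Icc 1 X).filter fun n => n ∈ T ∧ sfp (n * ∏ i ∈ S, d i) ∈ V := by
    intro n hn
    rw [mem_filter] at hn
    obtain ⟨h1, h2, h3⟩ := hn
    rw [mem_biUnion]
    by_contra hcon
    push Not at hcon
    have h4 : ∀ S : Finset (Fin r), ∃ R ≤ ρ, gs (sfp (n * ∏ i ∈ S, d i)) = 2 ^ (R + 1) := by
      intro S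
      by_contra h5
      push Not at h5
      exact hcon S (mem_univ S) (mem_filter.2 ⟨h1, h2, (hV _).2 h5⟩)
    exact hG n h2 h4 h3
  have hinj : ∀ S : Finset (Fin r), ((Icc 1 X).filter fun n => n ∈ T ∧ sfp (n * ∏ i ∈ S, d i) ∈ V).card ≤
      ((Icc 1 (X * ∏ i ∈ S, d i)).filter fun n => n ∈ T ∧ n ∈ V).card := by
    intro S
    have hp : 0 < ∏ i ∈ S, d i := by
      have := prod_mod hd S
      omega
    refine card_le_card_of_injOn (fun n => sfp (n * ∏ i ∈ S, d i)) ?_ ?_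
    · intro n hn
      obtain ⟨h1, h2, h3⟩ := mem_filter.1 (mem_coe.1 hn)
      rw [mem_Icc] at h1
      obtain ⟨h4, h5⟩ := sfp_T h2 (prod_mod hd S)
      refine mem_coe.2 (mem_filter.2 ⟨mem_Icc.2 ⟨Nat.pos_of_ne_zero h4.1.ne_zero, ?_⟩, h4, h3⟩)
      exact h5.trans (Nat.mul_le_mul_right _ h1.2)
    · intro n hn m hm h
      obtain ⟨-, h2, -⟩ := mem_filter.1 (mem_coe.1 hn)
      obtain ⟨-, h3, -⟩ := mem_filter.1 (mem_coe.1 hm)
      exact sfp_inj_mul h2.1 h3.1 hp h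
  set B : ℝ := (((Icc 1 X).filter fun n => n ∈ T).card : ℝ) with hB
  have hB0 : 0 ≤ B := Nat.cast_nonneg _
  calc (((Icc 1 X).filter fun n => n ∈ T ∧ G n).card : ℝ)
      ≤ ∑ S : Finset (Fin r), (((Icc 1 (X * ∏ i ∈ S, d i)).filter fun n => n ∈ T ∧ n ∈ V).card : ℝ) := by
        have h1 := (card_le_card hsub).trans (card_biUnion_le.trans (sum_le_sum fun S _ => hinj S))
        exact_mod_cast h1
    _ ≤ ∑ S : Finset (Fin r), (δ + η) * ((((∏ i ∈ S, d i : ℕ) : ℝ) + η) * B) :=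
        sum_le_sum fun S hS => hX S hS
    _ = (δ + η) * (D + 2 ^ r * η) * B := by
        rw [← mul_sum, ← sum_mul, sum_add_distrib, ← hDsum, sum_const, card_univ,
          Fintype.card_finset, Fintype.card_fin, nsmul_eq_mul]
        push_cast
        ring
    _ ≤ (D * δ + ε) * B := mul_le_mul_of_nonneg_right hη1 hB0

end Pool.Agent.N873.AM
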