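import Pool.Agent.N873.AM.Cor

/-!
# Project AM (helper873): the tail of the coranks
-/

set_option autoImplicit false
set_option linter.unusedVariables false

open scoped Classical

namespace Pool.Agent.N873.AM

open Finset NumberField Filter
open Pool.Agent.N856.JL (sfp)
open Pool.Agent.N873.UT (gs)
open Pool.Agent.N873.MF (EK)
open Pool.Agent.N873.AL (Pr T bad)
open Pool.Agent.TH841.NF.D (HasDiv crk rk)

/-- **The tail of the coranks over the field.** -/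
theorem tail_cor {F : Finset (ℤ × ℤ)} (hF : ∀ c ∈ F, Pr c) {r : ℕ}
    {d : Fin r → ℕ} (hd : ∀ i, d i % 4 = 1) (K : Type) [Field K] [NumberField K] (x : Fin r → K)
    (hx : ∀ i, x i ^ 2 = (d i : K)) (hK : IntermediateField.adjoin ℚ (Set.range x) = ⊤) (ρ : ℕ)
    (f : ℕ → ℤ × ℤ → ℕ) (hf : ∀ (n : ℕ) (c : ℤ × ℤ), f n c = rk (EK K n c) + crk (EK K n c))
    (ε : ℝ) (hε : 0 < ε) : ∀ᶠ X : ℕ in atTop,
      (((Icc 1 X).filter fun n => n ∈ T ∧ ∃ c ∈ F, 2 ^ r * (2 * (ρ + (bad F).card + 1)) <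
        f n c).card : ℝ) ≤
      ((∏ i, (1 + (d i : ℝ))) * (4 * (1 / 2 : ℝ) ^ (ρ + 1) ^ 2) + ε) *
        (((Icc 1 X).filter fun n => n ∈ T).card : ℝ) := by
  have hG : ∀ n ∈ T, (∀ S : Finset (Fin r), ∃ R ≤ ρ, gs (sfp (n * ∏ i ∈ S, d i)) = 2 ^ (R + 1)) →
      ¬ ∃ c ∈ F, 2 ^ r * (2 * (ρ + (bad F).card + 1)) < f n c := by
    rintro n hn h4 ⟨c, hc, h3⟩
    choose R hR1 hR2 using h4
    have h5 := (cor_K hF hc hd K x hx hK hn R hR2).2
    rw [← hf] at h5
    have h6 : ∑ S : Finset (Fin r), 2 * (R S + (bad F).card + 1) ≤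
        2 ^ r * (2 * (ρ + (bad F).card + 1)) := by
      calc ∑ S : Finset (Fin r), 2 * (R S + (bad F).card + 1)
          ≤ ∑ S : Finset (Fin r), 2 * (ρ + (bad F).card + 1) :=
            sum_le_sum fun S _ =>
              Nat.mul_le_mul_left 2 (Nat.add_le_add_right (Nat.add_le_add_right (hR1 S) _) 1)
        _ = 2 ^ r * (2 * (ρ + (bad F).card + 1)) := by
            rw [sum_const, card_univ, Fintype.card_finset, Fintype.card_fin, smul_eq_mul]
    exact absurd (h5.trans h6) (not_le.2 h3)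
  obtain ⟨G, hG'⟩ : ∃ G : ℕ → Prop, ∀ n, G n ↔ ∃ c ∈ F, 2 ^ r * (2 * (ρ + (bad F).card + 1)) < f n c :=
    ⟨fun n => ∃ c ∈ F, 2 ^ r * (2 * (ρ + (bad F).card + 1)) < f n c, fun n => Iff.rfl⟩
  have h := tail_gen hd ρ G (fun n hn h4 h0 => hG n hn h4 ((hG' n).1 h0)) ε hε
  filter_upwards [h] with X hX
  refine le_trans (le_of_eq ?_) hX
  rw [Nat.cast_inj]
  refine congrArg Finset.card ?_
  ext n
  simp only [mem_filter, hG']

end Pool.Agent.N873.AM
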